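import Mathlib

set_option autoImplicit false

namespace Pool.Agent.Results.MP_d6d41b_al.NotTransitive

/-- Strong o-conjugacy in a monoid `S = S¹`. -/
def StrongOConj {S : Type} [Monoid S] (a b : S) : Prop :=
  ∃ g h : S, g * h * g = g ∧ h * g * h = h ∧ a * g = g * b ∧ b * h = h * a

abbrev X := {p : ℕ × ℕ // p.2 < 2 ^ p.1}

def M : Submonoid (Function.End X) where
  carrier := {f | ∀ y, {x | f x = y}.Finite}
  one_mem' := fun y => (Set.finite_singleton y).subset fun _ h => h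
  mul_mem' := by
    intro f g hf hg y
    exact ((hf y).biUnion fun z _ => hg z).subset fun x h =>
      Set.mem_biUnion (x := g x) h rfl

theorem level_finite (n : ℕ) : {x : X | x.1.1 ≤ n}.Finite := by
  refine Set.Finite.of_finite_image (f := Subtype.val) ?_ Subtype.val_injective.injOn
  refine ((Set.finite_le_nat n).prod (Set.finite_le_nat (2 ^ n))).subset ?_
  rintro _ ⟨x, hx, rfl⟩
  exact ⟨hx, x.2.le.trans (Nat.pow_le_pow_right (by norm_num) hx)⟩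

def F (ε : ℕ → ℕ) (hε : ∀ k, k ≤ ε k + 1) (c : ℕ) : M :=
  ⟨fun x => ⟨(ε x.1.1, (x.1.2 + c) % 2 ^ ε x.1.1), Nat.mod_lt _ (by positivity)⟩, fun y =>
    (level_finite (y.1.1 + 1)).subset fun x h => by
      have h1 : ε x.1.1 = y.1.1 := congrArg (fun t : X => t.1.1) h
      exact h1 ▸ hε x.1.1⟩

theorem F_mul (ε δ η : ℕ → ℕ) (hε hδ hη) (c d : ℕ) (h1 : ∀ k, ε k ≤ k) (h2 : ∀ k, ε (δ k) = η k) :
    F ε hε c * F δ hδ d = F η hη (d + c) := by
  apply Subtype.ext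
  funext x
  apply Subtype.ext
  change (ε (δ x.1.1), ((x.1.2 + d) % 2 ^ δ x.1.1 + c) % 2 ^ ε (δ x.1.1)) =
    (η x.1.1, (x.1.2 + (d + c)) % 2 ^ η x.1.1)
  rw [Nat.add_mod, Nat.mod_mod_of_dvd _ (pow_dvd_pow 2 (h1 _)), ← Nat.add_mod, h2, add_assoc]

theorem F_pow (ε : ℕ → ℕ) (hε) (h1 : ∀ k, ε k ≤ k) (h2 : ∀ k, ε (ε k) = ε k) (n : ℕ) :
    F ε hε 1 ^ (n + 1) = F ε hε (n + 1) := by
  induction n with
  | zero => simp
  | succ n ih => rw [pow_succ', ih, F_mul ε ε ε hε hε hε _ _ h1 h2]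

theorem conj_b (ε : ℕ → ℕ) (hε hb) (h1 : ∀ k, ε k ≤ k) (h2 : ∀ k, ε (ε k) = ε k) :
    F ε hε 0 * F ε hε 0 * F ε hε 0 = F ε hε 0 ∧ F ε hε 1 * F ε hε 0 = F ε hε 0 * F id hb 1 ∧
      F id hb 1 * F ε hε 0 = F ε hε 0 * F ε hε 1 := by
  refine ⟨?_, ?_, ?_⟩
  · rw [F_mul ε ε ε hε hε hε _ _ h1 h2, F_mul ε ε ε hε hε hε _ _ h1 h2]
  · rw [F_mul ε ε ε hε hε hε _ _ h1 h2, F_mul ε id ε hε hb hε _ _ h1 fun _ => rfl]
  · rw [F_mul ε ε ε hε hε hε _ _ h1 h2, F_mul id ε ε hb hε hε _ _ (fun _ => le_rfl) fun _ => rfl]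

theorem level (ε δ : ℕ → ℕ) (hε hδ) (h1 : ∀ k, ε k ≤ k) (h2 : ∀ k, ε (ε k) = ε k)
    (h3 : ∀ k, δ k ≤ k) (h4 : ∀ k, δ (δ k) = δ k) (g : M)
    (hg : F ε hε 1 * g = g * F δ hδ 1) (y : X) (hy : δ y.1.1 = y.1.1) :
    ε (g.1 y).1.1 = (g.1 y).1.1 ∧ (g.1 y).1.1 ≤ y.1.1 := by
  obtain ⟨n, hn⟩ : ∃ n, 2 ^ y.1.1 = n + 1 :=
    ⟨2 ^ y.1.1 - 1, by have : 0 < 2 ^ y.1.1 := by positivity
                       omega⟩
  have h5 : SemiconjBy g (F δ hδ 1) (F ε hε 1) := hg.symm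
  have h6 := (h5.pow_right (n + 1)).eq
  rw [F_pow δ hδ h3 h4, F_pow ε hε h1 h2, ← hn] at h6
  have h7 : (F δ hδ (2 ^ y.1.1)).1 y = y := by
    apply Subtype.ext
    change (δ y.1.1, (y.1.2 + 2 ^ y.1.1) % 2 ^ δ y.1.1) = y.1
    rw [hy, Nat.add_mod_right, Nat.mod_eq_of_lt y.2]
  have h8 : g.1 ((F δ hδ (2 ^ y.1.1)).1 y) = (F ε hε (2 ^ y.1.1)).1 (g.1 y) :=
    congrFun (congrArg Subtype.val h6) y
  rw [h7] at h8
  generalize g.1 y = x at h8
  have h9 : x.1.1 = ε x.1.1 := congrArg (fun t : X => t.1.1) h8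
  have h10 : x.1.2 = (x.1.2 + 2 ^ y.1.1) % 2 ^ ε x.1.1 := congrArg (fun t : X => t.1.2) h8
  refine ⟨h9.symm, ?_⟩
  rw [← h9] at h10
  have h11 : x.1.2 ≡ x.1.2 + 2 ^ y.1.1 [MOD 2 ^ x.1.1] := by
    rw [Nat.ModEq, ← h10, Nat.mod_eq_of_lt x.2]
  have h12 := (Nat.modEq_iff_dvd' (Nat.le_add_right _ _)).1 h11
  rw [Nat.add_sub_cancel_left] at h12
  exact (Nat.pow_dvd_pow_iff_le_right (by norm_num)).1 h12

def ev (k : ℕ) : ℕ := 2 * (k / 2)
def od (k : ℕ) : ℕ := 2 * ((k + 1) / 2) - 1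

/-- A regular monoid in which strong o-conjugacy is not transitive. -/
theorem result : ∃ (S : Type) (_ : Monoid S), (∀ x : S, ∃ y : S, x = x * y * x) ∧
    ∃ a b c : S, StrongOConj a b ∧ StrongOConj b c ∧ ¬ StrongOConj a c := by
  classical
  have e0 : ∀ k, k ≤ ev k + 1 := fun k => by unfold ev; omega
  have e1 : ∀ k, ev k ≤ k := fun k => by unfold ev; omega
  have e2 : ∀ k, ev (ev k) = ev k := fun k => by unfold ev; omega
  have o0 : ∀ k, k ≤ od k + 1 := fun k => by unfold od; omega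
  have o1 : ∀ k, od k ≤ k := fun k => by unfold od; omega
  have o2 : ∀ k, od (od k) = od k := fun k => by unfold od; omega
  have b0 : ∀ k : ℕ, k ≤ id k + 1 := fun k => Nat.le_succ k
  refine ⟨M, inferInstance, ?_, F ev e0 1, F id b0 1, F od o0 1, ?_, ?_, ?_⟩
  · intro f
    refine ⟨⟨fun y => if h : ∃ x, f.1 x = y then h.choose else y, fun x => ?_⟩, ?_⟩
    · refine ((Set.finite_singleton x).insert (f.1 x)).subset fun y hy => ?_
      simp only [Set.mem_ofPred_eq] at hy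
      split_ifs at hy with h
      · exact Or.inl (by rw [← hy, h.choose_spec])
      · exact Or.inr hy
    · apply Subtype.ext
      funext x
      change f.1 x = f.1 (if h : ∃ y, f.1 y = f.1 x then h.choose else f.1 x)
      have h : ∃ y, f.1 y = f.1 x := ⟨x, rfl⟩
      rw [dif_pos h, h.choose_spec]
  · obtain ⟨h1, h2, h3⟩ := conj_b ev e0 b0 e1 e2
    exact ⟨_, _, h1, h1, h2, h3⟩
  · obtain ⟨h1, h2, h3⟩ := conj_b od o0 b0 o1 o2
    exact ⟨_, _, h1, h1, h3, h2⟩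
  · rintro ⟨g, h, h1, -, h2, h3⟩
    have key : ∀ n : ℕ, g.1 ⟨(2 * n + 1, 0), by positivity⟩ = ⟨(0, 0), by norm_num⟩ := by
      intro n
      obtain ⟨a1, -⟩ := level ev od e0 o0 e1 e2 o1 o2 g h2 ⟨(2 * n + 1, 0), by positivity⟩
        (by unfold od; simp only; omega)
      have a2 : g.1 (h.1 (g.1 ⟨(2 * n + 1, 0), by positivity⟩)) =
          g.1 ⟨(2 * n + 1, 0), by positivity⟩ := congrFun (congrArg Subtype.val h1) _
      generalize g.1 ⟨(2 * n + 1, 0), by positivity⟩ = x at a1 a2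
      obtain ⟨a3, a4⟩ := level od ev o0 e0 o1 o2 e1 e2 h h3 x a1
      obtain ⟨-, a5⟩ := level ev od e0 o0 e1 e2 o1 o2 g h2 _ a3
      rw [a2] at a5
      obtain ⟨⟨k, i⟩, hx⟩ := x
      have hk : k = 0 := by
        unfold ev at a1
        unfold od at a3
        simp only at a1 a4 a5
        omega
      subst hk
      apply Subtype.ext
      simp only [pow_zero] at hx
      simp only [Prod.mk.injEq, true_and]
      omega
    refine Set.infinite_of_injective_forall_mem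
      (f := fun n : ℕ => (⟨(2 * n + 1, 0), by positivity⟩ : X)) ?_ key (g.2 _)
    intro m n hmn
    have : 2 * m + 1 = 2 * n + 1 := congrArg (fun t : X => t.1.1) hmn
    omega

end Pool.Agent.Results.MP_d6d41b_al.NotTransitive
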